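import Pool.Agent.W912.LG.Defs
import Pool.Agent.H622R2.Ckt.CIR
import Pool.Agent.H622R2.Exp.A6
import Pool.Agent.W900.CH.EFar

/-!
# No generators: infinitely many stages
-/

set_option autoImplicit false

namespace Pool.Agent.W912.LG

open Pool.Agent.NPC Pool.Agent.H620R2.Gauge Pool.Agent.H622R2.Exp Pool.Agent.H622R2.Ckt
open Pool.Agent.W900.CH Pool.Agent.W912.EC
open MeasureTheory Filter

/-- the result of all stages -/
theorem stages3 (hS : S_STAGE) (M₁ M₂ : ℕ → Alg) {g : ℕ → ℝ} {cs : ℕ → ℝ}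
    (hcs : ∀ j, 0 < cs j)
    (hg : ∀ j : ℕ, ∃ᶠ n : ℕ in atTop, ∀ m ≥ n, (n : ℝ) ^ cs j < g m) (O : Oracle) :
    ∃ (A : Oracle) (n k N : ℕ → ℕ) (w : ℕ → List Bool), Close g O A ∧ (∀ j, j ≤ n j) ∧
      (∀ j, N j + 1 ≤ n j) ∧ (∀ j, k j ≤ n j) ∧
      (∀ j, (cs j - 1 / ((j : ℝ) + 1)) * Real.logb 2 (n j) + 4 ≤ k j) ∧
      (∀ j, ∀ e ≤ j, ∀ x : List Bool, x.length = k j → (cds j e (w j) x).length = N j) ∧
      ∀ j, ∀ e ≤ j, ∀ x : List Bool, x.length = k j →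
        (A (cds j e (w j) x) = true ↔ Phi (M₁ e) (M₂ e) (n j) A x) := by
  have H := fun j : ℕ => hS M₁ M₂ g (cs j) (hcs j) (hg j) j
  choose fn fk fN ft fB fw fA h1 h2 h3 hx1 hx2 h4 h5 h6 h7 h8 h9 h10 using H
  let st : ℕ → Oracle × ℕ × ℕ := fun j => Nat.rec (O, 0, 0)
    (fun j p => (fA j p.1 p.2.1 p.2.2, fB j p.1 p.2.1 p.2.2, p.2.2 + ft j p.1 p.2.1 p.2.2)) j
  let Aj : ℕ → Oracle := fun j => (st j).1
  let Bj : ℕ → ℕ := fun j => (st j).2.1
  let Tj : ℕ → ℕ := fun j => (st j).2.2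
  let nj : ℕ → ℕ := fun j => fn j (Aj j) (Bj j) (Tj j)
  let kj : ℕ → ℕ := fun j => fk j (Aj j) (Bj j) (Tj j)
  let Nj : ℕ → ℕ := fun j => fN j (Aj j) (Bj j) (Tj j)
  let tj : ℕ → ℕ := fun j => ft j (Aj j) (Bj j) (Tj j)
  let wj : ℕ → List Bool := fun j => fw j (Aj j) (Bj j) (Tj j)
  have A0 : Aj 0 = O := rfl
  have T0 : Tj 0 = 0 := rfl
  have TS : ∀ j, Tj (j + 1) = Tj j + tj j := fun j => rfl
  have g1 : ∀ j, Bj j < Nj j := fun j => h1 j (Aj j) (Bj j) (Tj j)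
  have g2 : ∀ j, Nj j ≤ Bj (j + 1) := fun j => h2 j (Aj j) (Bj j) (Tj j)
  have g3 : ∀ j, j ≤ nj j := fun j => h3 j (Aj j) (Bj j) (Tj j)
  have gx1 : ∀ j, Nj j + 1 ≤ nj j := fun j => hx1 j (Aj j) (Bj j) (Tj j)
  have gx2 : ∀ j, kj j ≤ nj j := fun j => hx2 j (Aj j) (Bj j) (Tj j)
  have g4 : ∀ j, (cs j - 1 / ((j : ℝ) + 1)) * Real.logb 2 (nj j) + 4 ≤ kj j :=
    fun j => h4 j (Aj j) (Bj j) (Tj j)
  have g5 : ∀ j, ∀ y : List Bool, y.length ≠ Nj j → Aj (j + 1) y = Aj j y :=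
    fun j => h5 j (Aj j) (Bj j) (Tj j)
  have g6 : ∀ j, Set.Finite {y | Aj (j + 1) y ≠ Aj j y} := fun j => h6 j (Aj j) (Bj j) (Tj j)
  have g7 : ∀ j, Set.ncard {y | Aj (j + 1) y ≠ Aj j y} ≤ tj j :=
    fun j => h7 j (Aj j) (Bj j) (Tj j)
  have g8 : ∀ j, ∀ m ≥ Nj j, ((Tj j + tj j : ℕ) : ℝ) ≤ g m := fun j => h8 j (Aj j) (Bj j) (Tj j)
  have g9 : ∀ j, ∀ e ≤ j, ∀ x : List Bool, x.length = kj j →
    (cds j e (wj j) x).length = Nj j := fun j => h9 j (Aj j) (Bj j) (Tj j)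
  have g10 : ∀ j, ∀ A'' : Oracle, (∀ y : List Bool, y.length ≤ Bj (j + 1) →
      A'' y = Aj (j + 1) y) → ∀ e ≤ j, ∀ x : List Bool, x.length = kj j →
        (A'' (cds j e (wj j) x) = true ↔ Phi (M₁ e) (M₂ e) (nj j) A'' x) :=
    fun j => h10 j (Aj j) (Bj j) (Tj j)
  clear_value Aj Bj Tj nj kj Nj tj wj
  -- monotonicity
  have hBm : StrictMono Bj := strictMono_nat_of_lt_succ fun j => (g1 j).trans_le (g2 j)
  have hNm : StrictMono Nj := strictMono_nat_of_lt_succ fun j => (g2 j).trans_lt (g1 (j + 1))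
  have hBid : ∀ j, j ≤ Bj j := fun j => hBm.id_le j
  have hNid : ∀ j, j ≤ Nj j := fun j => hNm.id_le j
  -- agreement
  have agr : ∀ j i, j ≤ i → ∀ y : List Bool, y.length ≤ Bj j → Aj i y = Aj j y := by
    intro j i hij
    induction i, hij using Nat.le_induction with
    | base => intro y _; rfl
    | succ i hi ih =>
      intro y hy
      rw [g5 i y (by have := g1 i; have := hBm.monotone hi; omega), ih y hy]
  let As : Oracle := fun y => Aj y.length y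
  have hAs : ∀ j, ∀ y : List Bool, y.length ≤ Bj j → As y = Aj j y := by
    intro j y hy
    show Aj y.length y = Aj j y
    rcases le_total y.length j with h | h
    · exact (agr _ _ h y (hBid _)).symm
    · exact agr _ _ h y hy
  have hAs2 : ∀ j, ∀ y : List Bool, y.length < Nj j → As y = Aj j y := by
    intro j y hy
    rw [hAs (j + 1) y (by have := g2 j; omega), g5 j y (by omega)]
  have hdiff : ∀ j, Set.Finite {y | Aj j y ≠ O y} ∧ Set.ncard {y | Aj j y ≠ O y} ≤ Tj j := by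
    intro j
    induction j with
    | zero =>
      rw [A0, T0]
      simp
    | succ j ih =>
      have hsub : {y | Aj (j + 1) y ≠ O y} ⊆ {y | Aj (j + 1) y ≠ Aj j y} ∪ {y | Aj j y ≠ O y} := by
        intro y hy
        rw [Set.mem_union]
        by_contra hc
        push Not at hc
        obtain ⟨hc1, hc2⟩ := hc
        apply hy
        have e1 : Aj (j + 1) y = Aj j y := by
          by_contra h'; exact hc1 h'
        have e2 : Aj j y = O y := by
          by_contra h'; exact hc2 h'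
        rw [e1, e2]
      refine ⟨((g6 j).union ih.1).subset hsub, ?_⟩
      refine (Set.ncard_le_ncard hsub ((g6 j).union ih.1)).trans ?_
      refine (Set.ncard_union_le _ _).trans ?_
      have := g7 j
      have := ih.2
      rw [TS]
      omega
  refine ⟨As, nj, kj, Nj, wj, ?_, g3, gx1, gx2, g4, g9, fun j => g10 j As (hAs (j + 1))⟩
  unfold Close
  filter_upwards [eventually_ge_atTop (Nj 0)] with m hm
  obtain ⟨j, hj1, hj2⟩ : ∃ j, Nj j ≤ m ∧ m < Nj (j + 1) := by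
    classical
    refine ⟨Nat.findGreatest (fun j => Nj j ≤ m) m, ?_, ?_⟩
    · exact Nat.findGreatest_spec (P := fun j => Nj j ≤ m) (Nat.zero_le m) hm
    · by_contra hc
      push Not at hc
      have h11 : Nat.findGreatest (fun j => Nj j ≤ m) m + 1 ≤ m := (hNid _).trans hc
      have h12 := Nat.le_findGreatest (P := fun j => Nj j ≤ m) h11 hc
      omega
  have h11 : dist O As m ≤ Tj (j + 1) := by
    refine le_trans ?_ (hdiff (j + 1)).2
    unfold Pool.Agent.W900.CH.dist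
    refine Set.ncard_le_ncard ?_ (hdiff (j + 1)).1
    rintro x ⟨hx1, hx2⟩
    show Aj (j + 1) x ≠ O x
    rw [← hAs2 (j + 1) x (by omega)]
    exact hx2
  have h12 := g8 j m hj1
  rw [TS] at h11
  exact (Nat.cast_le.2 h11).trans h12

theorem out_unique {M : Alg} {A : Oracle} {x : List Bool} {F : List Bool → List Bool}
    (h : ∀ x, M.out A x = some (F x)) {z : List Bool} (hz : M.out A x = some z) : z = F x := by
  rw [h x] at hz
  exact (Option.some.inj hz).symm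

theorem up3 (hS : S_STAGE) (hadv : S_ADV) {g : ℕ → ℝ} {cs : ℕ → ℝ} (hcs : ∀ j, 0 < cs j)
    (hg : ∀ j : ℕ, ∃ᶠ n : ℕ in atTop, ∀ m ≥ n, (n : ℝ) ^ cs j < g m) (O : Oracle) :
    ∃ A : Oracle, Close g O A ∧ ∀ a : ℝ,
      (∀ᶠ j : ℕ in atTop, a ≤ cs j - 1 / ((j : ℝ) + 1)) → ¬ HasGen A a := by
  have hne : Nonempty (Alg × Alg) := ⟨(A6.alg 0 0, A6.alg 0 0)⟩
  obtain ⟨F, hF⟩ := exists_surjective_nat (Alg × Alg)
  obtain ⟨A, n, k, N, w, hA, h1, hn1, hn2, h2, h3, h4⟩ :=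
    stages3 hS (fun e => (F e).1) (fun e => (F e).2) hcs hg O
  refine ⟨A, hA, fun a ha hgen => ?_⟩
  obtain ⟨d, D, G, ⟨M₁, hM₁⟩, ⟨M₂, hM₂⟩, hD, hG, hev⟩ := hgen
  obtain ⟨e, he⟩ := hF (M₁, M₂)
  obtain ⟨k₁, hk₁⟩ := eventually_atTop.1 ha
  obtain ⟨k₂, hk₂⟩ := eventually_atTop.1 hev
  obtain ⟨j, hj⟩ : ∃ j, j = e + k₁ + k₂ + 1 := ⟨_, rfl⟩
  have hjn := h1 j
  obtain ⟨h5, -, h6⟩ := hk₂ (n j) (by omega)
  have h7 : a * Real.logb 2 (n j) ≤ (cs j - 1 / ((j : ℝ) + 1)) * Real.logb 2 (n j) := by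
    apply mul_le_mul_of_nonneg_right (hk₁ j (by omega))
    apply Real.logb_nonneg (by norm_num)
    have : 1 ≤ n j := by omega
    exact_mod_cast this
  have h8 : d (n j) + 4 ≤ k j := by
    have h9 := h2 j
    have h10 : ((d (n j) + 4 : ℕ) : ℝ) ≤ k j := by
      push_cast
      linarith
    exact_mod_cast h10
  obtain ⟨C, hC1, hC2⟩ := hadv A (n j) (k j) (d (n j)) j e (w j)
    (fun s => G (pairBits (List.replicate (n j) true) s)) (hn2 j) h8 (hG (n j))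
    (fun u hu => by rw [h3 j e (by omega) u hu]; exact hn1 j) (fun u hu => by
      rw [h4 j e (by omega) u hu, he]
      constructor
      · rintro ⟨d', hd1, -, s, z, hs, hz, hu2⟩
        have h9 := out_unique hM₁ hd1
        rw [hD] at h9
        have h10 : d' = d (n j) := by
          have := congrArg List.length h9
          simpa using this
        refine ⟨s, hs.trans h10, ?_⟩
        have h11 := out_unique hM₂ hz
        show u = (G (pairBits (List.replicate (n j) true) s)).take (k j)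
        rw [← h11, ← hu]
        exact hu2
      · rintro ⟨s, hs, hu2⟩
        refine ⟨d (n j), ?_, by rw [hu]; exact h8, s, _, hs, hM₂ _, ?_⟩
        · show M₁.out A _ = _
          rw [hM₁, hD]
        · rw [hu]
          exact hu2)
  exact absurd (h6 C hC1) (not_le.2 hC2)

/-- the case of one exponent -/
theorem up3_c (hS : S_STAGE) (hadv : S_ADV) {g : ℕ → ℝ} {c : ℝ} (hc : 0 < c)
    (hg : ¬ ∀ᶠ n : ℕ in atTop, ∃ m ≥ n, g m ≤ (n : ℝ) ^ c) (O : Oracle) :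
    ∃ A : Oracle, Close g O A ∧ ∀ a : ℝ, a < c → ¬ HasGen A a := by
  have hg' : ∃ᶠ n : ℕ in atTop, ∀ m ≥ n, (n : ℝ) ^ c < g m := by
    rw [not_eventually] at hg
    refine hg.mono fun n hn m hm => ?_
    push Not at hn
    exact hn m hm
  obtain ⟨A, h1, h2⟩ := up3 hS hadv (cs := fun _ => c) (fun _ => hc) (fun _ => hg') O
  refine ⟨A, h1, fun a ha => h2 a ?_⟩
  have h3 : Tendsto (fun j : ℕ => c - 1 / ((j : ℝ) + 1)) atTop (nhds (c - 0)) :=
    tendsto_const_nhds.sub tendsto_one_div_add_atTop_nhds_zero_nat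
  rw [sub_zero] at h3
  exact (h3.eventually (lt_mem_nhds ha)).mono fun j hj => le_of_lt hj

/-- the case of all exponents -/
theorem up3_all (hS : S_STAGE) (hadv : S_ADV) {g : ℕ → ℝ}
    (hg : ∀ c : ℝ, ¬ ∀ᶠ n : ℕ in atTop, ∃ m ≥ n, g m ≤ (n : ℝ) ^ c) (O : Oracle) :
    ∃ A : Oracle, Close g O A ∧ ∀ a : ℝ, ¬ HasGen A a := by
  have hg' : ∀ j : ℕ, ∃ᶠ n : ℕ in atTop, ∀ m ≥ n, (n : ℝ) ^ ((j : ℝ) + 1) < g m := by
    intro j
    have h := hg ((j : ℝ) + 1)
    rw [not_eventually] at h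
    refine h.mono fun n hn m hm => ?_
    push Not at hn
    exact hn m hm
  obtain ⟨A, h1, h2⟩ := up3 hS hadv (cs := fun j => (j : ℝ) + 1) (fun j => by positivity) hg' O
  refine ⟨A, h1, fun a => h2 a ?_⟩
  obtain ⟨k, hk⟩ := exists_nat_ge a
  filter_upwards [eventually_ge_atTop k] with j hj
  have h3 : (k : ℝ) ≤ j := by exact_mod_cast hj
  have h4 : 1 / ((j : ℝ) + 1) ≤ 1 := by
    rw [div_le_one (by positivity)]
    linarith [(Nat.cast_nonneg j : (0 : ℝ) ≤ j)]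
  linarith

end Pool.Agent.W912.LG
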