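import Pool.Agent.W912.EC.Defs

/-!
# Changing few strings of a random oracle, and the seed length of generators against circuits:
definitions and parts
-/

set_option autoImplicit false

namespace Pool.Agent.W912.LG

open Pool.Agent.NPC Pool.Agent.H620R2.Gauge Pool.Agent.H622R2.Exp Pool.Agent.H622R2.Ckt
open Pool.Agent.W900.CH Pool.Agent.W912.EC
open MeasureTheory Filter

/-- The fraction of the strings of length `n` that have the property `P`. -/
noncomputable def frac (n : ℕ) (P : List Bool → Prop) : ℝ :=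
  (Set.ncard {x : List Bool | x.length = n ∧ P x} : ℝ) / 2 ^ n

/-- The distinguishing advantage of the circuit `C` with oracle `A` against the map `G` from the
strings of length `d` to the strings of length `m`. -/
noncomputable def adv (A : Oracle) (C : Circuit) (m d : ℕ) (G : List Bool → List Bool) : ℝ :=
  |frac d (fun s => C.eval A (G s) = true) - frac m (fun x => C.eval A x = true)|

/-- Relative to the oracle `A` there is a generator with seed length at most `a log m` against
circuits with oracle `A`: the seed length `d m` is computable in polynomial time (relative to `A`)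
from the string of `m` ones, the output `G ⟨1 ^ m, s⟩` of length `m` is computable in polynomial
time (relative to `A`) from the string of `m` ones and the seed `s` of length `d m`, and for all
large `m` the seed length is at most `a log m` and less than `m`, and every circuit with oracle
gates for `A` of size at most `m` has advantage at most `1 / 8`. -/
def HasGen (A : Oracle) (a : ℝ) : Prop :=
  ∃ (d : ℕ → ℕ) (D G : List Bool → List Bool), IsFP A D ∧ IsFP A G ∧
    (∀ m : ℕ, D (List.replicate m true) = List.replicate (d m) true) ∧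
    (∀ (m : ℕ) (s : List Bool), s.length = d m →
      (G (pairBits (List.replicate m true) s)).length = m) ∧
    ∀ᶠ m : ℕ in atTop, (d m : ℝ) ≤ a * Real.logb 2 m ∧ d m < m ∧
      ∀ C : Circuit, C.size ≤ m →
        adv A C m (d m) (fun s => G (pairBits (List.replicate m true) s)) ≤ 1 / 8

/-! ## the generator -/

/-- the seed length -/
def dd (p q m : ℕ) : ℕ := p * Nat.log 2 m / q

/-- the strings asked by the generator -/
def tq (m i : ℕ) (s : List Bool) : List Bool :=
  List.replicate m true ++ false :: (List.replicate i true ++ false :: s)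

/-- the generator -/
def GG (A : Oracle) (m : ℕ) (s : List Bool) : List Bool :=
  (List.range m).map (fun i => A (tq m i s))

/-- the seed length is computable -/
def S_FPD : Prop := ∀ (p q : ℕ) (A : Oracle), 0 < q → ∃ D : List Bool → List Bool,
  IsFP A D ∧ ∀ m : ℕ, D (List.replicate m true) = List.replicate (dd p q m) true

/-- the generator is computable -/
def S_FPG : Prop := ∀ A : Oracle, ∃ G : List Bool → List Bool,
  IsFP A G ∧ ∀ (m : ℕ) (s : List Bool), G (pairBits (List.replicate m true) s) = GG A m s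

/-- `A` differs from `B` in at most `s` strings -/
def Near (B A : Oracle) (s : ℕ) : Prop := Set.Finite {y | A y ≠ B y} ∧ Set.ncard {y | A y ≠ B y} ≤ s

/-- the number of the different behaviours of the circuits of size at most `k`, with an oracle that
differs from `B` in at most `s` strings, on a finite set of inputs of length `n` -/
def S_GROW : Prop := ∀ (n k s : ℕ) (B : Oracle) (X : Finset (List Bool)), (∀ x ∈ X, x.length = n) →
  Set.ncard {f : List Bool → Bool | (∃ (A : Oracle) (C : Circuit), Near B A s ∧ C.size ≤ k ∧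
    ∀ x ∈ X, f x = C.eval A x) ∧ ∀ x ∉ X, f x = false} ≤ (X.card * (k + 1) + 1) ^ s * nC n k

/-- uniform convergence (symmetrization) for a class of sets with a bounded growth function -/
def S_VC : Prop := ∀ (ι X : Type) [Fintype ι] [Fintype X] [Nonempty X] (F : Set (X → Bool)) (Γ : ℕ),
  512 ≤ Fintype.card ι →
  (∀ Y : Finset X, Y.card ≤ 2 * Fintype.card ι →
    Set.ncard {f : X → Bool | (∃ h ∈ F, ∀ y ∈ Y, f y = h y) ∧ ∀ y ∉ Y, f y = false} ≤ Γ) →
  (Set.ncard {z : ι → X | ∃ h ∈ F, (1 : ℝ) / 16 <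
    |(Set.ncard {i | h (z i) = true} : ℝ) / Fintype.card ι -
      (Set.ncard {x | h x = true} : ℝ) / Fintype.card X|} : ℝ) ≤
    4 * Γ * Real.exp (-(Fintype.card ι : ℝ) / 4096) * (Fintype.card X : ℝ) ^ Fintype.card ι

open Classical in
/-- counting the bad oracles -/
def S_CNT3 : Prop := ∀ (m d N s : ℕ), 512 ≤ 2 ^ d → 16 * s ≤ 2 ^ d →
  (∀ i < m, ∀ x : List Bool, x.length = d → idx (tq m i x) < N) →
  (((Finset.univ : Finset (Fin N → Bool)).filter (fun v => ∃ v' : Fin N → Bool,
      (df v v').card ≤ s ∧ ∃ C : Circuit, C.size ≤ m ∧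
        1 / 8 < adv (orc N v') C m d (GG (orc N v') m))).card : ℝ) ≤
    4 * ((2 * 2 ^ d) * (m + 1) + 1) ^ s * nC m m * Real.exp (-(2 ^ d : ℝ) / 4096) * 2 ^ N

/-- numbers -/
def S_NUM3 : Prop := ∀ (p q : ℕ) (c : ℝ), 0 < q → 1 ≤ c → c * q < p → ∃ m₀ : ℕ, ∀ m ≥ m₀,
  ∀ d s : ℕ, d = dd p q m → (s : ℝ) ≤ ((2 * m + 2 + d : ℕ) : ℝ) ^ c →
    512 ≤ 2 ^ d ∧ 16 * s ≤ 2 ^ d ∧ d < m ∧ (d : ℝ) ≤ (p : ℝ) / q * Real.logb 2 m ∧
    4 * ((2 * 2 ^ d) * (m + 1) + 1 : ℝ) ^ s * nC m m * Real.exp (-(2 ^ d : ℝ) / 4096) ≤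
      (1 / 2) ^ m

/-! ## no generator -/

/-- `u` is an initial part of a value of the generator given by the algorithms `M₁` (seed length)
and `M₂` (output), if the seed length is at most `|u| - 4` -/
def Phi (M₁ M₂ : Alg) (m : ℕ) (A : Oracle) (u : List Bool) : Prop :=
  ∃ d : ℕ, M₁.out A (List.replicate m true) = some (List.replicate d true) ∧ d + 4 ≤ u.length ∧
    ∃ s z : List Bool, s.length = d ∧
      M₂.out A (pairBits (List.replicate m true) s) = some z ∧ u = z.take u.length

/-- one stage of the construction -/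
def S_STAGE : Prop := ∀ (M₁ M₂ : ℕ → Alg) (g : ℕ → ℝ) (c : ℝ), 0 < c →
  (∃ᶠ n : ℕ in atTop, ∀ m ≥ n, (n : ℝ) ^ c < g m) →
  ∀ (j : ℕ) (A : Oracle) (B T : ℕ), ∃ (m k N t B' : ℕ) (w : List Bool) (A' : Oracle),
    B < N ∧ N ≤ B' ∧ j ≤ m ∧ N + 1 ≤ m ∧ k ≤ m ∧
    (c - 1 / ((j : ℝ) + 1)) * Real.logb 2 m + 4 ≤ k ∧
    (∀ y : List Bool, y.length ≠ N → A' y = A y) ∧
    Set.Finite {y | A' y ≠ A y} ∧ Set.ncard {y | A' y ≠ A y} ≤ t ∧
    (∀ m' ≥ N, ((T + t : ℕ) : ℝ) ≤ g m') ∧
    (∀ e ≤ j, ∀ u : List Bool, u.length = k → (cds j e w u).length = N) ∧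
    ∀ A'' : Oracle, (∀ y : List Bool, y.length ≤ B' → A'' y = A' y) →
      ∀ e ≤ j, ∀ u : List Bool, u.length = k →
        (A'' (cds j e w u) = true ↔ Phi (M₁ e) (M₂ e) m A'' u)

/-- the codes give a circuit that distinguishes -/
def S_ADV : Prop := ∀ (A : Oracle) (m k d j e : ℕ) (w : List Bool) (G : List Bool → List Bool),
  k ≤ m → d + 4 ≤ k → (∀ s : List Bool, s.length = d → (G s).length = m) →
  (∀ u : List Bool, u.length = k → (cds j e w u).length + 1 ≤ m) →
  (∀ u : List Bool, u.length = k → (A (cds j e w u) = true ↔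
    ∃ s : List Bool, s.length = d ∧ u = (G s).take k)) →
  ∃ C : Circuit, C.size ≤ m ∧ 1 / 8 < adv A C m d G

end Pool.Agent.W912.LG
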