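import Pool.Agent.W912.LG.Defs
import Pool.Agent.H54.RQ.C1a
import Pool.Agent.H622R2.Ckt.LOC
import Pool.Agent.W900.CH.EFar
import Pool.Agent.H673R2.OneOne.Perm

/-!
# Generators exist relative to random oracles with few changes
-/

set_option autoImplicit false

namespace Pool.Agent.W912.LG

open Pool.Agent.NPC Pool.Agent.H620R2.Gauge Pool.Agent.H622R2.Exp Pool.Agent.H622R2.Ckt
open Pool.Agent.W900.CH Pool.Agent.W912.EC
open MeasureTheory Filter
open Pool.Agent.H628R3.RO (randomOracle)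

/-- bound for the lengths of the strings asked by the generator -/
def lm (p q m : ℕ) : ℕ := 2 * m + 2 + dd p q m

/-- the number of changes -/
noncomputable def s3 (p q m : ℕ) (c : ℝ) : ℕ := ⌊((lm p q m : ℕ) : ℝ) ^ c⌋₊

theorem length_tq {m i d : ℕ} {s : List Bool} (hs : s.length = d) :
    (tq m i s).length = m + i + 2 + d := by
  unfold tq
  simp only [List.length_append, List.length_replicate, List.length_cons, hs]
  ring

open Classical in
/-- the bad event -/
def Bad3 (p q : ℕ) (c : ℝ) (m : ℕ) : Set Oracle :=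
  {O | ∃ v' : Fin (2 ^ (lm p q m + 1) - 1) → Bool,
    (df (pre (2 ^ (lm p q m + 1) - 1) O) v').card ≤ s3 p q m c ∧
    ∃ C : Circuit, C.size ≤ m ∧
      1 / 8 < adv (orc (2 ^ (lm p q m + 1) - 1) v') C m (dd p q m)
        (GG (orc (2 ^ (lm p q m + 1) - 1) v') m)}

open Classical in
theorem prob_bad3 (hC : S_CNT3) {p q m : ℕ} {c : ℝ} (h1 : 512 ≤ 2 ^ dd p q m)
    (h2 : 16 * s3 p q m c ≤ 2 ^ dd p q m)
    (h : 4 * ((2 * 2 ^ dd p q m) * (m + 1) + 1 : ℝ) ^ s3 p q m c * nC m m *
      Real.exp (-(2 ^ dd p q m : ℝ) / 4096) ≤ (1 / 2) ^ m) :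
    randomOracle.real (Bad3 p q c m) ≤ (1 / 2) ^ m := by
  set N := 2 ^ (lm p q m + 1) - 1 with hN
  have h3 := (Pool.Agent.H54.RQ.main (fun i : Fin N => str i) (fun i j h => Fin.ext
    (str_injective h)) (fun v : Fin N → Bool => ∃ v' : Fin N → Bool,
      (df v v').card ≤ s3 p q m c ∧ ∃ C : Circuit, C.size ≤ m ∧
      1 / 8 < adv (orc N v') C m (dd p q m) (GG (orc N v') m))).2
  have h4 : Bad3 p q c m = {A : List Bool → Bool | ∃ v' : Fin N → Bool,
      (df (fun i : Fin N => A (str i)) v').card ≤ s3 p q m c ∧ ∃ C : Circuit, C.size ≤ m ∧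
      1 / 8 < adv (orc N v') C m (dd p q m) (GG (orc N v') m)} := rfl
  rw [h4, h3, Finset.sum_boole]
  have h5 := hC m (dd p q m) N (s3 p q m c) h1 h2 (fun i hi x hx => by
    have h6 := idx_lt (tq m i x)
    rw [length_tq hx] at h6
    have h7 : 2 ^ (m + i + 2 + dd p q m + 1) ≤ 2 ^ (lm p q m + 1) := by
      apply Nat.pow_le_pow_right (by norm_num)
      unfold lm
      omega
    omega)
  rw [div_le_iff₀ (by positivity)]
  refine h5.trans ?_
  exact mul_le_mul_of_nonneg_right h (by positivity)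

theorem ae_bad3 (hC : S_CNT3) (hN : S_NUM3) {p q : ℕ} {c : ℝ} (hq : 0 < q) (hc : 1 ≤ c)
    (hpq : c * q < p) : ∀ᵐ O ∂randomOracle, ∀ᶠ m : ℕ in atTop, O ∉ Bad3 p q c m := by
  obtain ⟨n₀, hn₀⟩ := hN p q c hq hc hpq
  have h1 := Pool.Agent.H673R2.OneOne.borel_cantelli (fun n => if n₀ ≤ n then Bad3 p q c n else ∅)
    (C := 2) (fun m => by
      have h2 : ∀ i ∈ Finset.range m, Pool.Agent.H628R3.RO.prob
          (if n₀ ≤ i then Bad3 p q c i else ∅) ≤ (1 / 2 : ℝ) ^ i := by
        intro i _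
        split_ifs with h
        · obtain ⟨h3, h4, -, -, h5⟩ := hn₀ i h (dd p q i) (s3 p q i c) rfl (by
            unfold s3 lm
            exact Nat.floor_le (by positivity))
          exact prob_bad3 hC h3 h4 h5
        · unfold Pool.Agent.H628R3.RO.prob
          rw [measureReal_empty]
          positivity
      refine (Finset.sum_le_sum h2).trans ?_
      have h3 : HasSum (fun i : ℕ => (1 / 2 : ℝ) ^ i) 2 := hasSum_geometric_two
      exact sum_le_hasSum _ (fun i _ => by positivity) h3)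
  rw [ae_iff]
  refine measure_mono_null ?_ h1
  intro O hO
  rw [Set.mem_ofPred_eq] at hO ⊢
  rw [not_eventually] at hO
  refine (hO.and_eventually (eventually_ge_atTop n₀)).mono ?_
  rintro n ⟨h2, h3⟩
  rw [if_pos h3]
  exact not_not.1 h2

theorem frac_congr {n : ℕ} {P Q : List Bool → Prop} (h : ∀ x : List Bool, x.length = n → (P x ↔ Q x)) :
    frac n P = frac n Q := by
  unfold frac
  have h1 : {x : List Bool | x.length = n ∧ P x} = {x : List Bool | x.length = n ∧ Q x} := by
    ext x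
    constructor
    · rintro ⟨h2, h3⟩
      exact ⟨h2, (h x h2).1 h3⟩
    · rintro ⟨h2, h3⟩
      exact ⟨h2, (h x h2).2 h3⟩
  rw [h1]

/-- the generator works -/
theorem low_pq {g : ℕ → ℝ} {p q : ℕ} {c : ℝ}
    (hg : ∀ᶠ n : ℕ in atTop, ∃ m ≥ n, g m ≤ (n : ℝ) ^ c) {O A : Oracle}
    (hO : ∀ᶠ m : ℕ in atTop, O ∉ Bad3 p q c m) (hA : Close g O A) :
    ∀ᶠ m : ℕ in atTop, ∀ C : Circuit, C.size ≤ m → adv A C m (dd p q m) (GG A m) ≤ 1 / 8 := by
  have h1 : ∀ᶠ m : ℕ in atTop, dist O A m ≤ ⌊(m : ℝ) ^ c⌋₊ := by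
    obtain ⟨m₀, hm₀⟩ := eventually_atTop.1 hA
    filter_upwards [hg, eventually_ge_atTop m₀] with m h2 h3
    obtain ⟨m', h4, h5⟩ := h2
    have h6 := hm₀ m' (h3.trans h4)
    have h7 : (dist O A m : ℝ) ≤ dist O A m' := by exact_mod_cast dist_mono O A h4
    exact Nat.le_floor (h7.trans (h6.trans h5))
  have hl : Tendsto (fun n => lm p q n) atTop atTop := by
    refine tendsto_atTop_mono (fun n => ?_) tendsto_id
    unfold lm
    simp only [id]
    omega
  filter_upwards [hO, hl.eventually h1] with m h2 h3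
  intro C hsize
  by_contra hC2
  push Not at hC2
  apply h2
  set N := 2 ^ (lm p q m + 1) - 1 with hN
  have hagree : ∀ y : List Bool, y.length ≤ lm p q m → orc N (pre N A) y = A y := by
    intro y hy
    apply orc_pre
    have h5 := idx_lt y
    have h6 : 2 ^ (y.length + 1) ≤ 2 ^ (lm p q m + 1) :=
      Nat.pow_le_pow_right (by norm_num) (by omega)
    omega
  have heval : ∀ x : List Bool, C.eval (orc N (pre N A)) x = C.eval A x := by
    intro x
    apply eval_local
    intro y hy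
    apply hagree
    have : m ≤ lm p q m := by unfold lm; omega
    omega
  have hGG : ∀ x : List Bool, x.length = dd p q m → GG (orc N (pre N A)) m x = GG A m x := by
    intro x hx
    unfold GG
    apply List.map_congr_left
    intro i hi
    rw [List.mem_range] at hi
    apply hagree
    rw [length_tq hx]
    unfold lm
    omega
  refine ⟨pre N A, ?_, C, hsize, ?_⟩
  · refine (df_pre O A _).trans ?_
    have h5 : Nat.log 2 N = lm p q m := by
      have h6 : 2 ^ lm p q m ≤ 2 ^ (lm p q m + 1) - 1 := by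
        have := Nat.one_le_two_pow (n := lm p q m)
        rw [pow_succ]
        omega
      apply Nat.log_eq_of_pow_le_of_lt_pow h6
      have := Nat.one_le_two_pow (n := lm p q m + 1)
      omega
    rw [h5]
    exact h3
  · have h5 : adv (orc N (pre N A)) C m (dd p q m) (GG (orc N (pre N A)) m) =
        adv A C m (dd p q m) (GG A m) := by
      unfold adv
      rw [frac_congr (n := dd p q m) (P := fun s => C.eval (orc N (pre N A))
        (GG (orc N (pre N A)) m s) = true) (Q := fun s => C.eval A (GG A m s) = true)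
        (fun x hx => by simp only [heval, hGG x hx]),
        frac_congr (n := m) (P := fun x => C.eval (orc N (pre N A)) x = true)
        (Q := fun x => C.eval A x = true) (fun x _ => by simp only [heval])]
    rw [h5]
    exact hC2

/-- a fraction between two numbers -/
theorem exists_frac3 {a c : ℝ} (hc : 1 ≤ c) (h : c < a) :
    ∃ p q : ℕ, 0 < q ∧ c * q < p ∧ (p : ℝ) / q ≤ a := by
  obtain ⟨r, h2, h3⟩ := exists_rat_btwn h
  have hr0 : (0 : ℝ) < r := by linarith
  have hr : 0 < r := by exact_mod_cast hr0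
  have h5 : (0 : ℝ) < r.den := by exact_mod_cast r.den_pos
  have h4 : ((r.num.toNat : ℕ) : ℝ) = r * r.den := by
    have h5 : ((r.num.toNat : ℕ) : ℤ) = r.num := Int.toNat_of_nonneg (Rat.num_nonneg.2 hr.le)
    have h6 : (r : ℝ) * r.den = r.num := by exact_mod_cast Rat.mul_den_eq_num r
    rw [h6]
    exact_mod_cast h5
  refine ⟨r.num.toNat, r.den, r.den_pos, ?_, ?_⟩
  · rw [h4]
    exact mul_lt_mul_of_pos_right h2 h5
  · rw [h4, mul_div_assoc, div_self h5.ne', mul_one]
    exact h3.le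

theorem low3 (hD : S_FPD) (hG : S_FPG) (hC : S_CNT3) (hN : S_NUM3) {g : ℕ → ℝ} {c : ℝ}
    (hc : 1 ≤ c) (hg : ∀ᶠ n : ℕ in atTop, ∃ m ≥ n, g m ≤ (n : ℝ) ^ c) :
    ∀ᵐ O ∂randomOracle, ∀ A : Oracle, Close g O A → ∀ a : ℝ, c < a → HasGen A a := by
  have h0 : ∀ᵐ O ∂randomOracle, ∀ p : ℕ × ℕ, 0 < p.2 → c * p.2 < p.1 →
      ∀ᶠ n : ℕ in atTop, O ∉ Bad3 p.1 p.2 c n := by
    rw [ae_all_iff]
    intro p
    by_cases h1 : 0 < p.2 ∧ c * p.2 < p.1
    · filter_upwards [ae_bad3 hC hN h1.1 hc h1.2] with O hO _ _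
      exact hO
    · exact Eventually.of_forall fun O h2 h3 => absurd ⟨h2, h3⟩ h1
  filter_upwards [h0] with O hO A hA a ha
  obtain ⟨p, q, hq, hpq, hpa⟩ := exists_frac3 hc ha
  obtain ⟨D, hD1, hD2⟩ := hD p q A hq
  obtain ⟨G, hG1, hG2⟩ := hG A
  refine ⟨dd p q, D, G, hD1, hG1, hD2, ?_, ?_⟩
  · intro m s _
    rw [hG2]
    unfold GG
    rw [List.length_map, List.length_range]
  · obtain ⟨m₀, hm₀⟩ := hN p q c hq hc hpq
    filter_upwards [low_pq hg (hO (p, q) hq hpq) hA, eventually_ge_atTop m₀,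
      eventually_ge_atTop 1] with m h1 h2 h3
    obtain ⟨-, -, h4, h5, -⟩ := hm₀ m h2 (dd p q m) (s3 p q m c) rfl (by
      unfold s3 lm
      exact Nat.floor_le (by positivity))
    refine ⟨h5.trans ?_, h4, fun C hC1 => ?_⟩
    · apply mul_le_mul_of_nonneg_right hpa
      apply Real.logb_nonneg (by norm_num)
      exact_mod_cast h3
    · have h6 := h1 C hC1
      have h7 : (fun s => G (pairBits (List.replicate m true) s)) = GG A m := by
        funext s
        exact hG2 m s
      rw [h7]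
      exact h6

end Pool.Agent.W912.LG
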